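import Pool.Agent.W207.SW.SpecE

/-! Project SW: the uniqueness theorem, even version. -/

set_option autoImplicit false

open Complex Filter Topology Set MeasureTheory
open scoped BigOperators

namespace Pool.Agent.W143.SW

open W207.SW

theorem tst_mono {L L' : ℝ} (h : L' ≤ L) {ψ : ℝ → ℝ} (hψ : TstL L' ψ) : TstL L ψ where
  smooth := hψ.smooth
  even := hψ.even
  supp := by
    obtain ⟨μ, h1, h2, h3⟩ := hψ.supp
    exact ⟨μ, h1, lt_of_lt_of_le h2 h, h3⟩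

theorem gap_mono {E : ℝ → ℝ} {L L' : ℝ} (h : L' ≤ L) (hE : GapE E L) : GapE E L' :=
  fun ψ hψ => hE ψ (tst_mono h hψ)

theorem sparseE (hO : S_ONEE) (hF : S_FEXTE) (hA : S_ALLE) : S_SPARSEE := by
  intro E C0 C δ ε Λ hΛ hG hE hC hδ hε hwin
  have hC0' : 0 < max C0 1 := lt_of_lt_of_le one_pos (le_max_right _ _)
  have hG' : Gr E (max C0 1) := by
    refine ⟨hG.1, ?_⟩
    filter_upwards [hG.2, ae_restrict_mem measurableSet_Ioi] with u hu hu0
    have hu0' : (0 : ℝ) < u := hu0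
    exact hu.trans (mul_le_mul_of_nonneg_right (le_max_left _ _) (by linarith))
  obtain ⟨C', ε', R1, hC', hε', hR1, hone⟩ := hO (max C0 1) C δ ε Λ hC0' hC hδ hε hΛ
  have h13 : 0 < 1 + δ / 3 := by positivity
  have hδ' : 0 < (δ / 3) / (1 + δ / 3) := by positivity
  have hε'' : 0 < ε' / (1 + δ / 3) := by positivity
  have hole : ∀ A : ℝ, ∃ R : ℝ, A ≤ R ∧
      HoleE E R ((δ / 3) / (1 + δ / 3)) (ε' / (1 + δ / 3)) C' := by
    intro A
    obtain ⟨R, σ, hR, hσ, hw⟩ := hwin (max A R1)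
    have hRA : A ≤ R := (le_max_left _ _).trans hR
    have hRR : R1 ≤ R := (le_max_right _ _).trans hR
    have hR0 : 0 < R := by linarith
    have h1 := hone E hG' hE R σ hRR hσ hw
    refine ⟨(1 + δ / 3) * R, by nlinarith, ?_⟩
    unfold HoleE
    have e1 : (1 + (δ / 3) / (1 + δ / 3)) * ((1 + δ / 3) * R) = (1 + 2 * δ / 3) * R := by
      field_simp
      ring
    have e2 : ε' / (1 + δ / 3) * ((1 + δ / 3) * R) = ε' * R := by
      field_simp
    rw [e1, e2]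
    exact h1
  refine hA E (max C0 1) hG' ?_
  by_contra hcon
  push Not at hcon
  obtain ⟨L0, hL0, hL0'⟩ := hcon
  let S : Set ℝ := {L | 0 < L ∧ GapE E L}
  have hbdd : BddAbove S := by
    refine ⟨L0, fun L hL => ?_⟩
    by_contra h
    push Not at h
    exact hL0' (gap_mono h.le hL.2)
  have hΛS : Λ ∈ S := ⟨hΛ, hE⟩
  have hsup : Λ ≤ sSup S := le_csSup hbdd hΛS
  have hsup0 : 0 < sSup S := lt_of_lt_of_le hΛ hsup
  have hgs : GapE E (sSup S) := by
    intro ψ hψ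
    obtain ⟨μ, h1, h2, h3⟩ := hψ.supp
    obtain ⟨L, hL, hμL⟩ := exists_lt_of_lt_csSup ⟨Λ, hΛS⟩ h2
    exact hL.2 ψ ⟨hψ.smooth, hψ.even, μ, h1, hμL, h3⟩
  obtain ⟨r, hr, hrF⟩ := hF (max C0 1) C' ((δ / 3) / (1 + δ / 3)) (ε' / (1 + δ / 3)) (sSup S)
    hC0' hC' hδ' hε'' hsup0
  have h4 : sSup S + r ∈ S := ⟨by linarith, hrF E hG' hgs hole⟩
  have h5 := le_csSup hbdd h4
  linarith

end Pool.Agent.W143.SW
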